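import Pool.Agent.Run7.h490.CU6

set_option autoImplicit false

/-!
# Horrocks' inequality and gradings of complexity two

`M` is a nonzero module of finite length over `k[X_1, …, X_m]`, `k` any field, supported at the origin, and graded by
`ℤ^r` so that `X_j` has degree `deg j`, and `F` is a resolution of `M` by finite free modules. In other words `M` is
equivariant for a torus which acts on the affine space through the characters `deg j`. The complexity of the action is
the number `m - dim ⟨deg j⟩`. The inequality `rank F_i ≥ binom(m, i)` is known for complexity zero (multigraded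
modules) and follows from the starting result `PartialMultigrading` for complexity one: there is a functional with
exactly two nonzero values. For complexity two and degrees in general position there is no such functional.

**The cut rule.** Delete a variable `X_a` and let `s (a, i)` be the number of the `i`-subsets `J` of the *other*
variables which are separated from their complement among the other variables by a functional `l` (with `l (deg a)`
positive or negative). Then the alternating sum `β_i - β_{i-1} + … ± β_0` of the Betti numbers is at least `s (a, i)`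
for all `a` with `deg a ≠ 0`, so `rank F_i ≥ β_i ≥ s (a, i) + s (b, i - 1)`. (`ChamberBounds`, a starting result, has
the subsets of all variables which are separated.) The proof: the alternating sum is the dimension of the kernel of
`X_a` on the Koszul homology `H_i` of the other variables, and this has to be estimated. Each separated set `J`
gives a class `e_J ⊗ z` in `H_i`, which is not in the image of `X_a` if `l (deg a) < 0`, and is in the kernel if
`l (deg a) > 0`. These classes are in different Jordan blocks of `X_a`: the submodule `C` of the classes of cycles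
without a component in `e_J ⊗ M` for the sets `J` of the second kind is stable under `X_a`, contains the classes of
the first kind (which give cokernel, hence kernel, of `X_a` on `C`), and is linearly independent of the classes of the
second kind.

**Complexity two.** If every variable occurs in a relation between the degrees and no relation has two zeros, then
after deleting `X_a` there is only one relation `c` between the degrees, and all sets are separated except the sets
`c > 0` and `c < 0`. So `rank F_i ≥ binom(m, i) - 2`, and `rank F_i ≥ binom(m, i)` unless `i` or `i - 1` is the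
number of the positive or of the negative coefficients of `c`. One can choose `a` such that these numbers differ by at
most one, and different `a` for different `i`. This gives the inequality for `|2 i - m| ≥ 3` in all cases, and for all
`i` except for the balanced gradings, for which the two numbers differ by at most one for all `a`.

For example, if `m = 5`, the degrees span a space of dimension three and are positive for a functional, they define
five points in a plane; the inequality holds in all cases except if the five points are the vertices of a convex
pentagon, and in this case `rank F_2, rank F_3 ≥ 8`.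
-/

namespace Pool.Agent.Results.MP_e2ce73_al.ComplexityTwo

open MvPolynomial Pool.Agent.Run7.h490.CU

universe u v

theorem result (k : Type u) [Field k] (m r : ℕ) (deg : Fin m → Fin r → ℤ)
    (M : Type v) [AddCommGroup M] [Module k M] [FiniteDimensional k M] [Nontrivial M]
    [Module (MvPolynomial (Fin m) k) M] [IsScalarTower k (MvPolynomial (Fin m) k) M]
    (ℳ : (Fin r → ℤ) → Submodule k M) (hℳ : DirectSum.IsInternal ℳ)
    (hX : ∀ (j : Fin m) (a : Fin r → ℤ), ∀ x ∈ ℳ a,
      (X j : MvPolynomial (Fin m) k) • x ∈ ℳ (a + deg j))
    (hnil : ∀ j : Fin m, ∃ N : ℕ, ∀ x : M, (X j : MvPolynomial (Fin m) k) ^ N • x = 0)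
    (F : ℕ → Type v) [∀ i, AddCommGroup (F i)] [∀ i, Module (MvPolynomial (Fin m) k) (F i)]
    [∀ i, Module.Free (MvPolynomial (Fin m) k) (F i)]
    [∀ i, Module.Finite (MvPolynomial (Fin m) k) (F i)]
    (d : ∀ i, F (i + 1) →ₗ[MvPolynomial (Fin m) k] F i)
    (ε : F 0 →ₗ[MvPolynomial (Fin m) k] M) (hε : Function.Surjective ε)
    (hd0 : LinearMap.range (d 0) = LinearMap.ker ε)
    (hd : ∀ i, LinearMap.range (d (i + 1)) = LinearMap.ker (d i)) :
    (∀ N : ℕ → ℕ, LC deg Finset.univ N → ∀ i, N i ≤ Module.finrank (MvPolynomial (Fin m) k) (F i)) ∧
    (∀ a b : Fin m, deg a ≠ 0 → deg b ≠ 0 → ∀ i : ℕ,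
      sepCount deg (Finset.univ.erase a) i + (if i = 0 then 0 else sepCount deg (Finset.univ.erase b) (i - 1)) ≤
        Module.finrank (MvPolynomial (Fin m) k) (F i)) ∧
    (m ≤ Module.finrank ℚ (Submodule.span ℚ (Set.range fun j t => (deg j t : ℚ))) + 2 →
      (∀ j, ∃ c : Fin m → ℚ, c j ≠ 0 ∧ ∀ t, ∑ l, c l * (deg l t : ℚ) = 0) → ∀ i : ℕ,
      m.choose i ≤ Module.finrank (MvPolynomial (Fin m) k) (F i) + 2 ∧
      (2 * i + 3 ≤ m ∨ m + 3 ≤ 2 * i → m.choose i ≤ Module.finrank (MvPolynomial (Fin m) k) (F i)) ∧
      ((∃ c : Fin m → ℚ, c ≠ 0 ∧ (∀ t, ∑ l, c l * (deg l t : ℚ) = 0) ∧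
          ((∃ x y, x ≠ y ∧ c x = 0 ∧ c y = 0) ∨ ((∃ x, c x = 0) ∧
            ((Finset.univ.filter fun j => 0 < c j).card + 2 ≤ (Finset.univ.filter fun j => c j < 0).card ∨
              (Finset.univ.filter fun j => c j < 0).card + 2 ≤ (Finset.univ.filter fun j => 0 < c j).card)))) →
        m.choose i ≤ Module.finrank (MvPolynomial (Fin m) k) (F i))) := by
  refine ⟨fun N hN i => main_poly k m M deg ℳ hℳ hX hnil F d ε hε hd0 hd N hN.bd i, fun a b ha hb i => ?_,
    fun hspan hno i => ⟨?_, fun hi => ?_, ?_⟩⟩
  · have h1 := main_poly k m M deg ℳ hℳ hX hnil F d ε hε hd0 hd _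
      (bd_count Finset.univ a b (Finset.mem_univ _) (Finset.mem_univ _) ha hb i) i
    rw [if_pos rfl] at h1
    exact h1
  · have h1 := main_poly k m M deg ℳ hℳ hX hnil F d ε hε hd0 hd _ (two_all hspan hno) i
    omega
  · have h1 := main_poly k m M deg ℳ hℳ hX hnil F d ε hε hd0 hd _ (two_outer hspan hno) i
    rw [if_pos hi] at h1
    exact h1
  · rintro ⟨c, h0, hc, ⟨x, y, hxy, hx, hy⟩ | ⟨⟨x, hx⟩, hu⟩⟩
    · exact main_poly k m M deg ℳ hℳ hX hnil F d ε hε hd0 hd _ (pair_case hspan hno hc h0 hxy hx hy) i
    exact main_poly k m M deg ℳ hℳ hX hnil F d ε hε hd0 hd _ (two_unbalanced hspan hno hc h0 hx hu) i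

end Pool.Agent.Results.MP_e2ce73_al.ComplexityTwo
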