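import Mathlib
import Pool.Agent.Run7.h490.MX5

set_option autoImplicit false

/-!
# Horrocks' inequality for modules with matrix symmetries

The variables of the polynomial ring `S` are the entries of generic matrices `X_1, …, X_s` of
arbitrary sizes `a_b × c_b`; so `S` has `m = ∑ a_b c_b` variables. Let `M ≠ 0` be a finite dimensional
`S`-module with a Hermitian inner product on which the unitary groups `U(a_b)` and `U(c_b)` act in a way
compatible with their actions on the rows and columns of the matrices `X_b`. (By Weyl's unitarian
trick these are all modules of finite length with a compatible rational action of the groups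
`GL(a_b) × GL(c_b)`, for example `S / I` for the ideals `I` generated by invariant spaces of forms in the
entries of the matrices.) Then every resolution of `M` by finite free modules satisfies Horrocks'
inequalities `rank F_i ≥ binom(m, i)` for all `i`. Only the infinitesimal action is used: operators on
`M` for the matrix units of every block. The resolution need not have any symmetry.

If all blocks have size `1 × 1` these are the multigraded modules. For blocks with at least three rows
and columns the torus does not separate the variables, and the known results about multigraded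
modules do not apply.

Idea of the proof. For a functional on the weights let `J` be the set of the variables of negative
weight. An eigenvector `v` in `M` for the lowest weight gives a harmonic element `e_J ⊗ v` of the Koszul
complex, and the same holds after a change of the coordinates by elements `g` of the unitary
groups. By a theorem of the starting files (`N672/HR`) `rank F_i` is at least the dimension of the span
of all exterior products `g e_J`. The sets `J` of this kind which belong to the standard order of the
rows and columns are the order ideals (Young diagrams in every block). We show that the `g e_J` span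
the exterior power of the space of all matrices. This is a part of the skew Cauchy formula (skew Howe
duality); here it follows from an explicit identity: the sum `Q` of the operators `E* E`, over the
raising operators `E` of the rows and of the columns, is diagonal in the basis of the `e_J`, for all
sets `J` of variables, since the off-diagonal terms which come from the rows and from the columns cancel, and
the eigenvalue at `e_J` is zero if and only if `J` is an order ideal.
-/

namespace Pool.Agent.Results.MP_e2ce73_al.MatrixSymmetries

open MvPolynomial

universe v

section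

variable {A C : ℕ} {β : Type} (bR : Fin A → β) (bC : Fin C → β)

/-- the positions in the blocks: pairs of a row and a column of the same block, where `bR` and `bC`
give the blocks of the `A` rows and the `C` columns -/
abbrev Cells : Type := {z : Fin A × Fin C // bR z.1 = bC z.2}

/-- the polynomial ring in the entries of the blocks -/
abbrev Ring : Type := MvPolynomial (Cells bR bC) ℂ

/-- the entry in row `p` and column `q` of the block diagonal matrix of the variables -/
noncomputable def entry [DecidableEq β] (p : Fin A) (q : Fin C) : Ring bR bC :=
  if h : bR p = bC q then X ⟨(p, q), h⟩ else 0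

end

/-- the unitary symmetries of `M`: for rows `p`, `p'` of one block there is an operator `L p p'` on `M`
with adjoint `L p' p` which acts on the entries of the matrices as the matrix unit `E_(p, p')` acts on the
rows, `[L p p', x_(p', q)] = x_(p, q)` and `[L p p', x_(r, q)] = 0` for `r ≠ p'`; and the same for the
columns, with operators `R q q'` -/
structure UnitarySymmetries {A C : ℕ} {β : Type} [DecidableEq β] (bR : Fin A → β) (bC : Fin C → β)
    (M : Type v) [NormedAddCommGroup M] [InnerProductSpace ℂ M] [Module (Ring bR bC) M] where
  /-- the operators of the rows -/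
  L : Fin A → Fin A → M →ₗ[ℂ] M
  /-- the operators of the columns -/
  R : Fin C → Fin C → M →ₗ[ℂ] M
  adjoint_rows : ∀ p p', bR p = bR p' → ∀ x y : M, (inner ℂ (L p p' x) y : ℂ) = inner ℂ x (L p' p y)
  adjoint_columns : ∀ q q', bC q = bC q' → ∀ x y : M,
    (inner ℂ (R q q' x) y : ℂ) = inner ℂ x (R q' q y)
  rows : ∀ p p', bR p = bR p' → ∀ r q (x : M), L p p' (entry bR bC r q • x) =
    entry bR bC r q • L p p' x + if r = p' then entry bR bC p q • x else 0
  columns : ∀ q q', bC q = bC q' → ∀ p s (x : M), R q q' (entry bR bC p s • x) =
    entry bR bC p s • R q q' x + if s = q' then entry bR bC p q • x else 0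

/-- **Horrocks' inequality for modules with matrix symmetries.** Let `S` be the polynomial ring in the
entries of generic matrices of arbitrary sizes, `m` the number of all entries, and `M ≠ 0` a finite
dimensional `S`-module with unitary symmetries for the rows and the columns of every matrix. Then
`rank F_i ≥ binom(m, i)` for all `i` and for every resolution `F` of `M` by finite free `S`-modules. -/
theorem result {A C : ℕ} {β : Type} [DecidableEq β] (bR : Fin A → β) (bC : Fin C → β)
    (M : Type v) [NormedAddCommGroup M] [InnerProductSpace ℂ M] [FiniteDimensional ℂ M]
    [Nontrivial M] [Module (Ring bR bC) M] [IsScalarTower ℂ (Ring bR bC) M]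
    (hsym : UnitarySymmetries bR bC M)
    (F : ℕ → Type v) [∀ i, AddCommGroup (F i)] [∀ i, Module (Ring bR bC) (F i)]
    [∀ i, Module.Free (Ring bR bC) (F i)] [∀ i, Module.Finite (Ring bR bC) (F i)]
    (d : ∀ i, F (i + 1) →ₗ[Ring bR bC] F i) (ε : F 0 →ₗ[Ring bR bC] M)
    (hε : Function.Surjective ε) (hd0 : LinearMap.range (d 0) = LinearMap.ker ε)
    (hd : ∀ i, LinearMap.range (d (i + 1)) = LinearMap.ker (d i)) (i : ℕ) :
    (Fintype.card (Cells bR bC)).choose i ≤ Module.finrank (Ring bR bC) (F i) := by
  classical
  let en : Fin (Fintype.card (Cells bR bC)) ≃ Cells bR bC := (Fintype.equivFin _).symm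
  let cell : Fin (Fintype.card (Cells bR bC)) → Fin A × Fin C := fun j => (en j).1
  have hcell : Function.Injective cell := fun j j' h => en.injective (Subtype.ext h)
  have hall : ∀ z, bR z.1 = bC z.2 ↔ ∃ j, cell j = z := by
    intro z
    constructor
    · intro h
      exact ⟨en.symm ⟨z, h⟩, by simp [cell]⟩
    · rintro ⟨j, rfl⟩
      exact (en j).2
  have hF : ∀ j, entry bR bC (cell j).1 (cell j).2 = X (en j) := by
    intro j
    rw [entry, dif_pos (en j).2]
  have hfun : (fun j => entry bR bC (cell j).1 (cell j).2) = fun j => X (en j) := funext hF
  have hset : ∀ l, (fun j => entry bR bC (cell j).1 (cell j).2) '' Set.Iio l =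
      (X : Cells bR bC → Ring bR bC) '' (en '' Set.Iio l) := by
    intro l
    rw [hfun, Set.image_image]
  have hrange : Set.range (fun j => entry bR bC (cell j).1 (cell j).2) =
      (X : Cells bR bC → Ring bR bC) '' Set.univ := by
    rw [hfun, Set.image_univ]
    exact en.surjective.range_comp (X : Cells bR bC → Ring bR bC)
  have hreg : ∀ (l : Fin (Fintype.card (Cells bR bC))) (s : Ring bR bC),
      entry bR bC (cell l).1 (cell l).2 * s ∈
        Ideal.span ((fun j => entry bR bC (cell j).1 (cell j).2) '' Set.Iio l) →
      s ∈ Ideal.span ((fun j => entry bR bC (cell j).1 (cell j).2) '' Set.Iio l) := by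
    intro l s hs
    rw [hset, hF, mem_ideal_span_X_image] at hs
    rw [hset, mem_ideal_span_X_image]
    intro μ hμ
    have h1 : Finsupp.single (en l) 1 + μ ∈ (X (en l) * s).support := by
      rw [mem_support_iff, coeff_X_mul]
      exact mem_support_iff.1 hμ
    obtain ⟨t, ht, h2⟩ := hs _ h1
    refine ⟨t, ht, ?_⟩
    obtain ⟨j, hj, rfl⟩ := ht
    have h3 : en l ≠ en j := fun h => absurd (en.injective h) (ne_of_gt hj)
    rwa [Finsupp.add_apply, Finsupp.single_eq_of_ne (Ne.symm h3), zero_add] at h2
  have hone : ∀ w : Ring bR bC ⧸ Ideal.span (Set.range fun j => entry bR bC (cell j).1 (cell j).2),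
      ∃ a : ℂ, a • (1 : Ring bR bC ⧸ Ideal.span (Set.range fun j =>
        entry bR bC (cell j).1 (cell j).2)) = w := by
    intro w
    obtain ⟨p, rfl⟩ := Ideal.Quotient.mk_surjective w
    refine ⟨constantCoeff p, ?_⟩
    have h1 : p - MvPolynomial.C (constantCoeff p) ∈
        Ideal.span (Set.range fun j => entry bR bC (cell j).1 (cell j).2) := by
      rw [hrange, mem_ideal_span_X_image]
      intro μ hμ
      by_contra hcon
      push Not at hcon
      have h2 : μ = 0 := by
        ext t
        exact hcon t (Set.mem_univ _)
      subst h2
      rw [mem_support_iff] at hμ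
      apply hμ
      rw [coeff_sub, coeff_C, if_pos rfl, constantCoeff_eq, sub_self]
    have h2 := (Ideal.Quotient.mk_eq_mk_iff_sub_mem _ _).2 h1
    have h3 := map_smul (Ideal.Quotient.mkₐ ℂ (Ideal.span (Set.range fun j =>
      entry bR bC (cell j).1 (cell j).2))) (constantCoeff p) (1 : Ring bR bC)
    rw [map_one, smul_eq_C_mul, mul_one] at h3
    rw [h2, ← h3]
    rfl
  have hfr := finrank_le_one _ hone
  have hfin : Module.Finite ℂ (Ring bR bC ⧸ Ideal.span (Set.range fun j =>
      entry bR bC (cell j).1 (cell j).2)) := by
    refine Module.Finite.of_surjective (LinearMap.toSpanSingleton ℂ _ (1 : Ring bR bC ⧸ Ideal.span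
      (Set.range fun j => entry bR bC (cell j).1 (cell j).2))) fun w => ?_
    obtain ⟨a, ha⟩ := hone w
    exact ⟨a, ha⟩
  have hM : Pool.Agent.Run7.h490.MX.MatSym bR bC (entry bR bC) M hsym.L hsym.R :=
    ⟨fun p q h => dif_neg h, hsym.adjoint_rows, hsym.adjoint_columns, hsym.rows, hsym.columns⟩
  have h1 := Pool.Agent.Run7.h490.MX.rank_le hcell hall hM hreg F d ε hε hd0 hd i
  exact h1.trans ((Nat.mul_le_mul_right _ hfr).trans (by rw [one_mul]))

end Pool.Agent.Results.MP_e2ce73_al.MatrixSymmetries
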