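import Mathlib
import Pool.Agent.Run7.h539.SPH.Z1

set_option autoImplicit false

/-!
# Horrocks' inequality for modules with symplectic symmetry

Let `S` be the polynomial ring over `ℂ` in `2 r` variables, the coordinates of the standard
representation `V` of the symplectic group `Sp(2r)`, and let `M ≠ 0` be a finite dimensional
`S`-module with a Hermitian inner product and a compatible unitary action of the compact symplectic
group. (By Weyl's unitarian trick these are all modules of finite dimension with a compatible rational
action of `Sp(2r, ℂ)`, for example the finite dimensional quotients of `S ⊗ W` by submodules which are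
stable under `Sp(2r)`, for any representation `W`. No grading of `M` is needed.) Then every resolution
of `M` by finite free modules satisfies Horrocks' inequalities `rank F_i ≥ binom(2r, i)` for all `i`.
Only the infinitesimal action is used. The resolution need not have any symmetry.

Idea of the proof. Let `i ≤ r`. For an isotropic subspace `P ⊆ V` of dimension `i` let `M_P` be the space of the vectors of `M` killed by the variables in `P` and by the
adjoints of the variables orthogonal to `P`. Then `e_P ⊗ M_P` consists of harmonic elements of the Koszul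
complex, and `M_P ≠ 0`; for this the highest eigenspace of the torus element of `P` is used, on which the
remaining variables are nilpotent. The `e_P` span the primitive part of the exterior power, of
dimension `binom(2r, i) - binom(2r, i-2)` only, so the span of the `e_P` alone is not enough. But if
the variables do not act by zero on `M` there are two cases: either every `M_P` has dimension
at least `i` (since it is a nontrivial representation of `SU(P)`), and then the harmonic space has dimension at
least `i (binom(2r, i) - binom(2r, i-2)) ≥ binom(2r, i)`; or for some `P` there is a vector in `M_P` on which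
`U(P)` acts by a positive power of the determinant, and then the harmonic space is a representation
of `Sp(2r)` with a weight which has `i` coordinates of absolute value at least two. A counting
argument shows that such a representation has at least `binom(2r, i)` different weights.
-/

namespace Pool.Agent.Results.MP_e2ce73_al.SymplecticSymmetries

open MvPolynomial

universe v

/-- the polynomial ring in `2 r` variables -/
abbrev Ring (r : ℕ) : Type := MvPolynomial (Fin r ⊕ Fin r) ℂ

/-- the matrices of the symplectic Lie algebra `sp(2r, ℂ)`: `Aᵀ J = - J A` for the standard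
skew-symmetric matrix `J` -/
def InSp {r : ℕ} (A : Matrix (Fin r ⊕ Fin r) (Fin r ⊕ Fin r) ℂ) : Prop :=
  A.transpose * Matrix.J (Fin r) ℂ = -(Matrix.J (Fin r) ℂ * A)

/-- the symplectic symmetries of `M`: a representation `ρ` of the Lie algebra `sp(2r, ℂ)` on `M`, such
that `ρ A` and `ρ Aᴴ` are adjoint and `ρ A` acts on the variables as the matrix `A` -/
structure SpSymmetries (r : ℕ) (M : Type v) [NormedAddCommGroup M] [InnerProductSpace ℂ M]
    [Module (Ring r) M] where
  /-- the representation (only its values on `sp(2r, ℂ)` are used) -/
  ρ : Matrix (Fin r ⊕ Fin r) (Fin r ⊕ Fin r) ℂ → M →ₗ[ℂ] M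
  add : ∀ A B, InSp A → InSp B → ∀ x, ρ (A + B) x = ρ A x + ρ B x
  smul : ∀ (a : ℂ) A, InSp A → ∀ x, ρ (a • A) x = a • ρ A x
  bracket : ∀ A B, InSp A → InSp B → ∀ x, ρ (A * B - B * A) x = ρ A (ρ B x) - ρ B (ρ A x)
  adjoint : ∀ A, InSp A → ∀ x y : M, (inner ℂ (ρ A x) y : ℂ) = inner ℂ x (ρ A.conjTranspose y)
  action : ∀ A, InSp A → ∀ q (x : M), ρ A ((X q : Ring r) • x) =
    (X q : Ring r) • ρ A x + ∑ p, A p q • (X p : Ring r) • x

/-- **Horrocks' inequality for modules with symplectic symmetry.** Let `S` be the polynomial ring in
`2 r` variables and `M ≠ 0` a finite dimensional `S`-module with symplectic symmetries. Then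
`rank F_i ≥ binom(2r, i)` for all `i` and for every resolution `F` of `M` by finite free `S`-modules. -/
theorem result (r : ℕ) (M : Type v) [NormedAddCommGroup M] [InnerProductSpace ℂ M]
    [FiniteDimensional ℂ M] [Nontrivial M] [Module (Ring r) M] [IsScalarTower ℂ (Ring r) M]
    (hsym : SpSymmetries r M)
    (F : ℕ → Type v) [∀ i, AddCommGroup (F i)] [∀ i, Module (Ring r) (F i)]
    [∀ i, Module.Free (Ring r) (F i)] [∀ i, Module.Finite (Ring r) (F i)]
    (d : ∀ i, F (i + 1) →ₗ[Ring r] F i) (ε : F 0 →ₗ[Ring r] M)
    (hε : Function.Surjective ε) (hd0 : LinearMap.range (d 0) = LinearMap.ker ε)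
    (hd : ∀ i, LinearMap.range (d (i + 1)) = LinearMap.ker (d i)) (i : ℕ) :
    (2 * r).choose i ≤ Module.finrank (Ring r) (F i) := by
  classical
  let en : Fin (r + r) ≃ Fin r ⊕ Fin r := finSumFinEquiv.symm
  have hset : ∀ l, (fun j => (X (en j) : Ring r)) '' Set.Iio l =
      (X : Fin r ⊕ Fin r → Ring r) '' (en '' Set.Iio l) := by
    intro l
    rw [Set.image_image]
  have hrange : Set.range (fun j => (X (en j) : Ring r)) =
      (X : Fin r ⊕ Fin r → Ring r) '' Set.univ := by
    rw [Set.image_univ]
    exact en.surjective.range_comp (X : Fin r ⊕ Fin r → Ring r)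
  have hreg : ∀ (l : Fin (r + r)) (s : Ring r), X (en l) * s ∈
        Ideal.span ((fun j => (X (en j) : Ring r)) '' Set.Iio l) →
      s ∈ Ideal.span ((fun j => (X (en j) : Ring r)) '' Set.Iio l) := by
    intro l s hs
    rw [hset, mem_ideal_span_X_image] at hs
    rw [hset, mem_ideal_span_X_image]
    intro μ hμ
    have h1 : Finsupp.single (en l) 1 + μ ∈ (X (en l) * s).support := by
      rw [mem_support_iff, coeff_X_mul]
      exact mem_support_iff.1 hμ
    obtain ⟨t, ht, h2⟩ := hs _ h1
    refine ⟨t, ht, ?_⟩
    obtain ⟨j, hj, rfl⟩ := ht
    have h3 : en l ≠ en j := fun h => absurd (en.injective h) (ne_of_gt hj)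
    rwa [Finsupp.add_apply, Finsupp.single_eq_of_ne (Ne.symm h3), zero_add] at h2
  have hone : ∀ w : Ring r ⧸ Ideal.span (Set.range fun j => (X (en j) : Ring r)),
      ∃ a : ℂ, a • (1 : Ring r ⧸ Ideal.span (Set.range fun j => (X (en j) : Ring r))) = w := by
    intro w
    obtain ⟨p, rfl⟩ := Ideal.Quotient.mk_surjective w
    refine ⟨constantCoeff p, ?_⟩
    have h1 : p - MvPolynomial.C (constantCoeff p) ∈
        Ideal.span (Set.range fun j => (X (en j) : Ring r)) := by
      rw [hrange, mem_ideal_span_X_image]
      intro μ hμ
      by_contra hcon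
      push Not at hcon
      have h2 : μ = 0 := by
        ext t
        exact hcon t (Set.mem_univ _)
      subst h2
      rw [mem_support_iff] at hμ
      apply hμ
      rw [coeff_sub, coeff_C, if_pos rfl, constantCoeff_eq, sub_self]
    have h2 := (Ideal.Quotient.mk_eq_mk_iff_sub_mem _ _).2 h1
    have h3 := map_smul (Ideal.Quotient.mkₐ ℂ (Ideal.span (Set.range fun j =>
      (X (en j) : Ring r)))) (constantCoeff p) (1 : Ring r)
    rw [map_one, smul_eq_C_mul, mul_one] at h3
    rw [h2, ← h3]
    rfl
  have hfr := finrank_le_one _ hone
  have hfin : Module.Finite ℂ (Ring r ⧸ Ideal.span (Set.range fun j => (X (en j) : Ring r))) := by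
    refine Module.Finite.of_surjective (LinearMap.toSpanSingleton ℂ _ (1 : Ring r ⧸ Ideal.span
      (Set.range fun j => (X (en j) : Ring r)))) fun w => ?_
    obtain ⟨a, ha⟩ := hone w
    exact ⟨a, ha⟩
  have h1 := Pool.Agent.Run7.h539.SPH.rank_sp (fun q => (X q : Ring r)) hreg (hfin := hfin) M hsym.ρ
    hsym.add hsym.smul hsym.bracket hsym.adjoint hsym.action F d ε hε hd0 hd i
  rw [two_mul]
  exact h1.trans ((Nat.mul_le_mul_right _ hfr).trans (by rw [one_mul]))

end Pool.Agent.Results.MP_e2ce73_al.SymplecticSymmetries
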